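import Pool.Agent.V1199.FrD

open Set Filter Topology

namespace Pool.Agent.Results.MP_e67678_an.Discontinuous

open Pool.Agent.V1199.Fr (E1 J S t t_pos t_le_one t_lim V EE xI D)

/-- `v = Σ^D_i α i • x i`: for every `ε > 0` there is `d ∈ D` such that
`‖v - Σ_{i ∈ d'} α i • x i‖ < ε` for every `d' ∈ D` with `d ⊆ d'`. -/
def DSum {I E : Type} [NormedAddCommGroup E] [NormedSpace ℝ E] (D : Set (Finset I)) (x : I → E)
    (α : I → ℝ) (v : E) : Prop :=
  ∀ ε : ℝ, 0 < ε → ∃ d ∈ D, ∀ d' ∈ D, d ⊆ d' → ‖v - ∑ i ∈ d', α i • x i‖ < ε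

/-- `(x i)` is an `(I, D)`-conditional basis of `E`: each `v` has exactly one representation. -/
def IsConditionalBasis {I E : Type} [NormedAddCommGroup E] [NormedSpace ℝ E]
    (D : Set (Finset I)) (x : I → E) : Prop :=
  ∀ v : E, ∃! α : I → ℝ, DSum D x α v

/-- There are a set `I`, a family `D` of finite subsets of `I` covering `I` and directed upwards,
a real Banach space `E` and an `(I, D)`-conditional basis of `E` one of whose coefficient
functionals is discontinuous. -/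
theorem result : ∃ (I : Type) (D : Set (Finset I)) (E : Type) (_ : NormedAddCommGroup E)
    (_ : NormedSpace ℝ E) (_ : CompleteSpace E) (x : I → E),
    (∀ i, ∃ d ∈ D, i ∈ d) ∧ (∀ d ∈ D, ∀ d' ∈ D, ∃ d'' ∈ D, d ⊆ d'' ∧ d' ⊆ d'') ∧
    IsConditionalBasis D x ∧
    ∃ i : I, ∀ f : E → I → ℝ, (∀ v, DSum D x (f v) v) → ¬ Continuous fun v => f v i := by
  classical
  obtain ⟨W, hW⟩ := Submodule.exists_isCompl V
  let B := Module.Basis.ofVectorSpace ℝ W
  let ι : Type := Module.Basis.ofVectorSpaceIndex ℝ W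
  let y : ι → E1 := fun b => (B b : E1)
  have hy : Function.Injective y := Subtype.val_injective.comp B.injective
  obtain ⟨σ, hσ⟩ := Pool.Agent.V1199.Fr.exists_label ι y hy
  have hgen := fun b : ι => Pool.Agent.V1199.Fr.exists_generic (fun i => t (σ b, i))
    (fun i => t_pos _) (fun i => t_le_one _) (t_lim (σ b))
  choose α P1 P2 using hgen
  have hlin : ∀ (Y : Finset ι) (l : ι → ℝ), ∑ b ∈ Y, l b • y b ∈ V → ∀ b ∈ Y, l b = 0 := by
    intro Y l hV
    have h1 : ∑ b ∈ Y, l b • y b = ((∑ b ∈ Y, l b • B b : W) : E1) := by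
      push_cast
      rfl
    rw [h1] at hV
    have h2 : ((∑ b ∈ Y, l b • B b : W) : E1) = 0 := by
      have := hW.disjoint.le_bot (show _ ∈ V ⊓ W from ⟨hV, (∑ b ∈ Y, l b • B b : W).2⟩)
      exact (Submodule.mem_bot ℝ).mp this
    have h3 : (∑ b ∈ Y, l b • B b : W) = 0 := Subtype.ext h2
    exact linearIndependent_iff'.mp B.linearIndependent Y l h3
  have hcov := Pool.Agent.V1199.Fr.covD σ y α hσ P1
  have hdir := Pool.Agent.V1199.Fr.dirD σ y α hσ P1
  have hzero := Pool.Agent.V1199.Fr.zero_rep σ y α hσ P1 P2 hlin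
  have huniq : ∀ (v : EE ι) (f g : J ⊕ (ι × ℕ) → ℝ),
      Pool.Agent.V1199.Fr.DSum (D σ y α) xI f v → Pool.Agent.V1199.Fr.DSum (D σ y α) xI g v →
      f = g := by
    intro v f g hf hg
    have h1 := hf.add hdir (hg.smul (-1))
    rw [neg_one_smul, add_neg_cancel] at h1
    have h2 := hzero _ h1
    funext i
    have := h2 i
    linarith
  have hne : (D σ y α).Nonempty := by
    obtain ⟨d, hd, -⟩ := hcov ∅
    exact ⟨d, hd⟩
  refine ⟨J ⊕ (ι × ℕ), D σ y α, EE ι, inferInstance, inferInstance, inferInstance, xI, ?_, hdir,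
    ?_, ?_⟩
  · intro i
    obtain ⟨d, hd, h⟩ := hcov {i}
    exact ⟨d, hd, h (Finset.mem_singleton_self i)⟩
  · rintro ⟨v1, u⟩
    obtain ⟨z, ⟨η, hη1, hη2⟩, w, hw, hzw⟩ := Submodule.mem_sup.mp
      (show v1 ∈ V ⊔ W by rw [hW.sup_eq_top]; exact Submodule.mem_top)
    have h1 := Pool.Agent.V1199.Fr.DSum.of_hasSum hcov
      (Pool.Agent.V1199.Fr.hasSum_left (ι := ι) hη2)
    have h2 := Pool.Agent.V1199.Fr.DSum.of_hasSum hcov
      (Pool.Agent.V1199.Fr.hasSum_right (ι := ι) u)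
    have h3 := Pool.Agent.V1199.Fr.DSum.sum hne hdir (B.repr ⟨w, hw⟩).support
      (α := fun b i => B.repr ⟨w, hw⟩ b *
        Sum.elim (Pool.Agent.V1199.Fr.aJ σ α b) (fun _ => 0) i)
      (v := fun b => B.repr ⟨w, hw⟩ b • ((y b, 0) : EE ι))
      (fun b _ => (Pool.Agent.V1199.Fr.dsum_wild σ y α hσ P1 b).smul _)
    have h4 := (h1.add hdir h3).add hdir h2
    have h5 : ((z, 0) : EE ι) + ∑ b ∈ (B.repr ⟨w, hw⟩).support,
        B.repr ⟨w, hw⟩ b • ((y b, 0) : EE ι) + (0, u) = (v1, u) := by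
      have hsum : ∑ b ∈ (B.repr ⟨w, hw⟩).support, B.repr ⟨w, hw⟩ b • y b = w := by
        have h6 := B.linearCombination_repr ⟨w, hw⟩
        rw [Finsupp.linearCombination_apply, Finsupp.sum] at h6
        have h7 := congrArg (fun a : W => (a : E1)) h6
        refine Eq.trans ?_ h7
        push_cast
        rfl
      apply Prod.ext
      · rw [Prod.fst_add, Prod.fst_add, Prod.fst_sum]
        change z + ∑ b ∈ (B.repr ⟨w, hw⟩).support, B.repr ⟨w, hw⟩ b • y b + 0 = v1
        rw [hsum, add_zero]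
        exact hzw
      · rw [Prod.snd_add, Prod.snd_add, Prod.snd_sum]
        simp
    rw [h5] at h4
    exact ⟨_, h4, fun g hg => huniq _ _ _ hg h4⟩
  · let s0 : S := ⟨1, by norm_num, le_rfl⟩
    refine ⟨Sum.inl (s0, 0), ?_⟩
    intro f hf hcont
    have hrep : ∀ (h : Finset ℕ) (c : ℕ → ℝ),
        f ((∑ i ∈ h, c i • Pool.Agent.V1199.Fr.x (t (s0, i)), 0) : EE ι) (Sum.inl (s0, 0)) =
        if 0 ∈ h then c 0 else 0 := by
      intro h c
      let φ : J → ℝ := fun j => if j.1 = s0 ∧ j.2 ∈ h then c j.2 else 0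
      have h1 : HasSum (fun j => φ j • Pool.Agent.V1199.Fr.x (t j))
          (∑ j ∈ h.image (fun i => ((s0, i) : J)), φ j • Pool.Agent.V1199.Fr.x (t j)) := by
        apply hasSum_sum_of_ne_finset_zero
        intro j hj
        have : ¬ (j.1 = s0 ∧ j.2 ∈ h) := by
          rintro ⟨hj1, hj2⟩
          exact hj (Finset.mem_image.mpr ⟨j.2, hj2, Prod.ext hj1.symm rfl⟩)
        simp only [φ, if_neg this, zero_smul]
      have h2 : ∑ j ∈ h.image (fun i => ((s0, i) : J)), φ j • Pool.Agent.V1199.Fr.x (t j) =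
          ∑ i ∈ h, c i • Pool.Agent.V1199.Fr.x (t (s0, i)) := by
        rw [Finset.sum_image (fun i _ i' _ hii => (Prod.mk.inj hii).2)]
        refine Finset.sum_congr rfl fun i hi => ?_
        change (if (s0 = s0 ∧ i ∈ h) then c i else 0) • _ = _
        rw [if_pos ⟨rfl, hi⟩]
      rw [h2] at h1
      have h3 := Pool.Agent.V1199.Fr.DSum.of_hasSum hcov
        (Pool.Agent.V1199.Fr.hasSum_left (ι := ι) h1)
      rw [huniq _ _ _ (hf _) h3]
      simp only [Sum.elim_inl, φ]
      by_cases h0 : 0 ∈ h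
      · rw [if_pos ⟨trivial, h0⟩, if_pos h0]
      · rw [if_neg (fun h => h0 h.2), if_neg h0]
    have hdense := fun n : ℕ => Pool.Agent.V1199.Fr.tail_dense (fun i => t (s0, i))
      (fun i => t_pos _) (fun i => t_le_one _) (t_lim s0) {0}
      (Pool.Agent.V1199.Fr.x (t (s0, 0))) (1 / ((n : ℝ) + 1)) (by positivity)
    choose h c hd hc using hdense
    have hlim : Tendsto (fun n => ((∑ i ∈ h n, c n i • Pool.Agent.V1199.Fr.x (t (s0, i)), 0) :
        EE ι)) atTop (𝓝 (Pool.Agent.V1199.Fr.x (t (s0, 0)), 0)) := by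
      refine Tendsto.prodMk_nhds ?_ tendsto_const_nhds
      rw [tendsto_iff_norm_sub_tendsto_zero]
      exact squeeze_zero (fun n => norm_nonneg _) (fun n => (hc n).le)
        tendsto_one_div_add_atTop_nhds_zero_nat
    have h1 := (hcont.tendsto _).comp hlim
    have h2 : (fun v => f v (Sum.inl (s0, 0))) ∘ (fun n =>
        ((∑ i ∈ h n, c n i • Pool.Agent.V1199.Fr.x (t (s0, i)), 0) : EE ι)) = fun _ => 0 := by
      funext n
      simp only [Function.comp_apply]
      rw [hrep, if_neg]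
      exact fun h0 => Finset.disjoint_left.mp (hd n) h0 (Finset.mem_singleton_self 0)
    rw [h2] at h1
    have h3 := tendsto_nhds_unique h1 tendsto_const_nhds
    have h4 := hrep {0} (fun _ => 1)
    rw [Finset.sum_singleton, one_smul, if_pos (Finset.mem_singleton_self 0)] at h4
    rw [h4] at h3
    exact one_ne_zero h3

end Pool.Agent.Results.MP_e67678_an.Discontinuous
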